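import Mathlib

set_option autoImplicit false

namespace Pool.Agent.H.MP_18ddbc_gt

open Set Topology

section General

variable {X Y : Type*} [TopologicalSpace X] [TopologicalSpace Y]

def Sep (f : X → Y) (K : Set Y) : Prop :=
  ∀ A B : Set X, IsClosed A → IsClosed B → Disjoint A B → A ∪ B = f ⁻¹' K → A.Nonempty →
    K ⊆ f '' A

lemma comp_of_sep [CompactSpace X] [T2Space X] [T1Space Y] {f : X → Y} (hf : Continuous f)
    {K : Set Y} (hK : IsClosed K) (hs : Sep f K) {x : X} (hx : f x ∈ K) :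
    f '' connectedComponentIn (f ⁻¹' K) x = K := by
  apply Subset.antisymm
  · rintro _ ⟨z, hz, rfl⟩
    exact connectedComponentIn_subset (f ⁻¹' K) x hz
  intro y hy
  have hZ : IsClosed (f ⁻¹' K) := hK.preimage hf
  have : CompactSpace (f ⁻¹' K) := isCompact_iff_compactSpace.1 hZ.isCompact
  rw [connectedComponentIn_eq_image (show x ∈ f ⁻¹' K from hx),
    connectedComponent_eq_iInter_isClopen]
  set x' : (f ⁻¹' K) := ⟨x, hx⟩
  have hcl : IsClosed {z : (f ⁻¹' K) | f z = y} :=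
    isClosed_singleton.preimage (hf.comp continuous_subtype_val)
  have key : ∀ s : Set (f ⁻¹' K), IsClopen s → x' ∈ s → ({z : (f ⁻¹' K) | f z = y} ∩ s).Nonempty := by
    intro s hs' hxs
    have := hs (Subtype.val '' s) (Subtype.val '' sᶜ)
      (hZ.isClosedEmbedding_subtypeVal.isClosedMap _ hs'.isClosed)
      (hZ.isClosedEmbedding_subtypeVal.isClosedMap _ hs'.compl.isClosed)
      ((disjoint_image_iff Subtype.val_injective).2 disjoint_compl_right)
      (by rw [← image_union, union_compl_self, image_univ, Subtype.range_coe])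
      ⟨x, x', hxs, rfl⟩ hy
    obtain ⟨_, ⟨z, hz, rfl⟩, h⟩ := this
    exact ⟨z, h, hz⟩
  obtain ⟨z, hz1, hz2⟩ := hcl.isCompact.inter_iInter_nonempty
    (fun s : {s : Set (f ⁻¹' K) // IsClopen s ∧ x' ∈ s} => s.1) (fun s => s.2.1.isClosed)
    (fun u => key _ (isClopen_biInter_finset fun s _ => s.2.1)
      (mem_iInter₂.2 fun s _ => s.2.2))
  exact ⟨z, ⟨z, hz2, rfl⟩, hz1⟩

lemma sep_of_open [CompactSpace X] [T2Space Y] {f : X → Y} (hf : Continuous f) (ho : IsOpenMap f)
    {K : Set Y} (hK : IsPreconnected K) : Sep f K := by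
  intro A B hA hB hd hu hne
  have h1 : IsClosed (f '' A) := (hA.isCompact.image hf).isClosed
  have h2 : IsOpen (f '' Bᶜ) := ho _ hB.isOpen_compl
  have h3 : f '' A ⊆ f '' Bᶜ := image_mono hd.subset_compl_right
  by_contra hcon
  obtain ⟨y, hy, hyA⟩ := not_subset.1 hcon
  obtain ⟨a, ha⟩ := hne
  have haK : f a ∈ K := (hu ▸ Or.inl ha : a ∈ f ⁻¹' K)
  obtain ⟨w, hwK, ⟨z, hz, rfl⟩, hwA⟩ := hK _ _ h2 h1.isOpen_compl
    (fun w _ => (em (w ∈ f '' A)).imp (fun h => h3 h) id) ⟨f a, haK, h3 ⟨a, ha, rfl⟩⟩ ⟨y, hy, hyA⟩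
  have : z ∈ A ∪ B := hu ▸ hwK
  exact hwA ⟨z, this.resolve_right hz, rfl⟩

end General

abbrev Lim (g : ℕ → unitInterval → unitInterval) :=
  {x : ℕ → unitInterval // ∀ k, x k = g k (x (k + 1))}

variable {g : ℕ → unitInterval → unitInterval}

lemma lim_compact (hg : ∀ k, Continuous (g k)) : CompactSpace (Lim g) := by
  apply isCompact_iff_compactSpace.1
  apply IsClosed.isCompact
  have : {x : ℕ → unitInterval | ∀ k, x k = g k (x (k + 1))} =
      ⋂ k, {x : ℕ → unitInterval | x k = g k (x (k + 1))} := by ext; simp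
  change IsClosed {x : ℕ → unitInterval | ∀ k, x k = g k (x (k + 1))}
  rw [this]
  exact isClosed_iInter fun k =>
    isClosed_eq (continuous_apply k) ((hg k).comp (continuous_apply (k + 1)))

lemma cont_p (i : ℕ) : Continuous fun x : Lim g => x.1 i :=
  (continuous_apply i).comp continuous_subtype_val

lemma det {x y : Lim g} {i j : ℕ} (hij : i ≤ j) (h : x.1 j = y.1 j) : x.1 i = y.1 i := by
  induction j, hij using Nat.le_induction with
  | base => exact h
  | succ j _ ih => exact ih (by rw [x.2 j, y.2 j, h])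

lemma surj_of_open {G : unitInterval → unitInterval} (hc : Continuous G) (ho : IsOpenMap G) :
    Function.Surjective G := by
  have : IsClopen (range G) := ⟨(isCompact_range hc).isClosed, ho.isOpen_range⟩
  exact range_eq_univ.1 (this.eq_univ (range_nonempty G))

lemma p_surj (j : ℕ) : ∀ (g : ℕ → unitInterval → unitInterval), (∀ k, Function.Surjective (g k)) →
    ∀ t, ∃ x : Lim g, x.1 j = t := by
  induction j with
  | zero =>
    intro g hg t
    choose r hr using hg
    exact ⟨⟨fun n => Nat.rec t (fun k s => r k s) n, fun k => (hr k _).symm⟩, rfl⟩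
  | succ j ih =>
    intro g hg t
    obtain ⟨x, hx⟩ := ih (fun k => g (k + 1)) (fun k => hg (k + 1)) t
    refine ⟨⟨fun n => Nat.casesOn n (g 0 (x.1 0)) x.1, fun k => ?_⟩, hx⟩
    cases k with
    | zero => rfl
    | succ k => exact x.2 k

lemma sepR {R : Set (Lim g × Lim g)} (hR : IsCompact R) (hd : ∀ p ∈ R, p.1 ≠ p.2) (i : ℕ) :
    ∃ j, i ≤ j ∧ ∃ ε > 0, ∀ p ∈ R, ε ≤ dist (p.1.1 j) (p.2.1 j) := by
  obtain ⟨j, hj⟩ := hR.elim_directed_cover (fun j : ℕ => {p : Lim g × Lim g | p.1.1 j ≠ p.2.1 j})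
    (fun j => isOpen_ne_fun ((cont_p j).comp continuous_fst) ((cont_p j).comp continuous_snd))
    (by
      intro p hp
      by_contra hcon
      simp only [mem_iUnion, mem_ofPred_eq, not_exists, not_not] at hcon
      exact hd p hp (Subtype.ext (funext hcon)))
    (directed_of_isDirected_le fun a b hab p hp h => hp (det hab h))
  refine ⟨max i j, le_max_left _ _, ?_⟩
  obtain ⟨ε, hε, h⟩ := hR.exists_forall_le' (a := (0:ℝ))
    (f := fun p => dist (p.1.1 (max i j)) (p.2.1 (max i j)))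
    (((cont_p _).comp continuous_fst).dist ((cont_p _).comp continuous_snd)).continuousOn
    (fun p hp => dist_pos.2 fun h => hj hp (det (le_max_right _ _) h))
  exact ⟨ε, hε, h⟩

lemma img_open (hg : ∀ k, Continuous (g k) ∧ IsOpenMap (g k)) {i j : ℕ} (hij : i ≤ j) :
    ∀ V : Set unitInterval, IsOpen V →
      IsOpen ((fun x : Lim g => x.1 i) '' {x : Lim g | x.1 j ∈ V}) := by
  have hs := fun k => surj_of_open (hg k).1 (hg k).2
  induction j, hij using Nat.le_induction with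
  | base =>
    intro V hV
    convert hV
    ext t
    constructor
    · rintro ⟨x, hx, rfl⟩; exact hx
    · intro ht
      obtain ⟨x, rfl⟩ := p_surj i g hs t
      exact ⟨x, ht, rfl⟩
  | succ j hij ih =>
    intro V hV
    convert ih _ ((hg j).2 V hV) using 1
    ext t
    constructor
    · rintro ⟨x, hx, rfl⟩
      exact ⟨x, ⟨_, hx, (x.2 j).symm⟩, rfl⟩
    · rintro ⟨x, ⟨v, hv, hx⟩, rfl⟩
      obtain ⟨y, rfl⟩ := p_surj (j + 1) g hs v
      exact ⟨y, hv, det hij (by rw [y.2 j, hx])⟩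

lemma p_open (hg : ∀ k, Continuous (g k) ∧ IsOpenMap (g k)) (i : ℕ) :
    IsOpenMap fun x : Lim g => x.1 i := by
  have := lim_compact fun k => (hg k).1
  intro W hW
  rw [isOpen_iff_forall_mem_open]
  rintro _ ⟨x, hx, rfl⟩
  obtain ⟨j, hij, ε, hε, h⟩ := sepR (R := {x} ×ˢ Wᶜ)
    (isCompact_singleton.prod hW.isClosed_compl.isCompact)
    (by
      rintro ⟨a, b⟩ ⟨ha, hb⟩ e
      have ha : a = x := ha
      have e : a = b := e
      exact hb (show b ∈ W from e ▸ ha ▸ hx)) i
  refine ⟨_, ?_, img_open hg hij (Metric.ball (x.1 j) ε) Metric.isOpen_ball,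
    x, Metric.mem_ball_self hε, rfl⟩
  apply image_mono
  intro y hy
  by_contra hcon
  have := h (x, y) ⟨rfl, hcon⟩
  have hy : dist (y.1 j) (x.1 j) < ε := hy
  rw [dist_comm] at hy
  exact absurd this (not_le.2 hy)

theorem forward {X : Type*} [TopologicalSpace X] [CompactSpace X] [T2Space X]
    (hg : ∀ k, Continuous (g k)) {f : X → Lim g} (hf : Continuous f)
    (happ : ∀ j, ∀ ε > 0, ∃ G : X → unitInterval, Continuous G ∧ IsOpenMap G ∧
      ∀ x, dist (G x) ((f x).1 j) < ε)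
    {K : Set (Lim g)} (hK : IsClosed K) (hKc : IsPreconnected K) : Sep f K := by
  have := lim_compact hg
  intro A B hA hB hd hu ⟨a, ha⟩ y hy
  obtain ⟨U, V, hU, hV, hAU, hBV, hUV⟩ := normal_separation hA hB hd
  have hmain : y ∈ f '' Vᶜ := by
    by_contra hcon
    obtain ⟨j, -, ε, hε, h⟩ := sepR (R := K ×ˢ (f '' (U ∪ V)ᶜ) ∪ {y} ×ˢ (f '' Vᶜ))
      ((hK.isCompact.prod (((hU.union hV).isClosed_compl.isCompact).image hf)).union
        (isCompact_singleton.prod (hV.isClosed_compl.isCompact.image hf)))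
      (by
        rintro ⟨b, c⟩ (⟨hb, z, hz, rfl⟩ | ⟨rfl, hc⟩) e
        · have e : b = f z := e
          have : z ∈ A ∪ B := by rw [hu]; exact (e ▸ hb : f z ∈ K)
          exact hz (this.imp (fun h => hAU h) (fun h => hBV h))
        · have e : b = c := e
          exact hcon (e ▸ hc)) 0
    obtain ⟨G, hGc, hGo, hG⟩ := happ j (ε / 3) (by positivity)
    set K' : Set unitInterval := {t | ∃ z ∈ K, dist t (z.1 j) ≤ ε / 3} with hK'
    have hKj : IsPreconnected ((fun z : Lim g => z.1 j) '' K) :=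
      hKc.image _ (cont_p j).continuousOn
    have hcl : IsClosed K' := by
      have := (hK.isCompact.image (cont_p j)).cthickening_eq_biUnion_closedBall
        (δ := ε / 3) (by positivity)
      have e : K' = Metric.cthickening (ε / 3) ((fun z : Lim g => z.1 j) '' K) := by
        rw [this]; ext t; simp [hK']
      rw [e]; exact Metric.isClosed_cthickening
    have hpc : IsPreconnected K' := by
      rw [isPreconnected_iff_ordConnected] at hKj ⊢
      constructor
      rintro t₁ ⟨z₁, h₁, d₁⟩ t₂ ⟨z₂, h₂, d₂⟩ t ⟨l₁, l₂⟩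
      rw [Subtype.dist_eq, Real.dist_eq, abs_le] at d₁ d₂
      have l₁' : (t₁:ℝ) ≤ t := l₁
      have l₂' : (t:ℝ) ≤ t₂ := l₂
      rcases le_total t (z₁.1 j) with c | c
      · have c' : (t:ℝ) ≤ z₁.1 j := c
        refine ⟨z₁, h₁, ?_⟩
        rw [Subtype.dist_eq, Real.dist_eq, abs_le]
        constructor <;> linarith [d₁.1]
      rcases le_total (z₂.1 j) t with e | e
      · have e' : ((z₂.1 j : unitInterval):ℝ) ≤ t := e
        refine ⟨z₂, h₂, ?_⟩
        rw [Subtype.dist_eq, Real.dist_eq, abs_le]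
        constructor <;> linarith [d₂.2]
      obtain ⟨z, hz, e'⟩ := hKj.out ⟨z₁, h₁, rfl⟩ ⟨z₂, h₂, rfl⟩ ⟨c, e⟩
      exact ⟨z, hz, by simp only at e'; rw [e', dist_self]; positivity⟩
    have hsub : G ⁻¹' K' ⊆ U ∪ V := by
      rintro x ⟨z, hz, d⟩
      by_contra hx
      have := h (z, f x) (Or.inl ⟨hz, x, hx, rfl⟩)
      have t1 := dist_triangle_left (z.1 j) ((f x).1 j) (G x)
      have := hG x
      simp only at *
      linarith
    have haK : f a ∈ K := (hu ▸ Or.inl ha : a ∈ f ⁻¹' K)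
    obtain ⟨x, hx, e⟩ := sep_of_open hGc hGo hpc (G ⁻¹' K' ∩ Vᶜ) (G ⁻¹' K' ∩ Uᶜ)
      ((hcl.preimage hGc).inter hV.isClosed_compl) ((hcl.preimage hGc).inter hU.isClosed_compl)
      (by
        rw [Set.disjoint_left]
        rintro x ⟨h1, h2⟩ ⟨-, h3⟩
        exact (hsub h1).elim h3 h2)
      (by
        rw [← inter_union_distrib_left, ← compl_inter, inter_comm V U,
          disjoint_iff_inter_eq_empty.1 hUV, compl_empty, inter_univ])
      ⟨a, ⟨f a, haK, (hG a).le⟩, fun hv => Set.disjoint_left.1 hUV (hAU ha) hv⟩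
      (show y.1 j ∈ K' from ⟨y, hy, by rw [dist_self]; positivity⟩)
    have := h (y, f x) (Or.inr ⟨rfl, x, hx.2, rfl⟩)
    have h2 := hG x
    rw [e] at h2
    simp only at this
    linarith
  obtain ⟨x, hx, rfl⟩ := hmain
  have : x ∈ A ∪ B := hu ▸ hy
  exact ⟨x, this.resolve_right fun h => hx (hBV h), rfl⟩

theorem exists_psi (hg : ∀ k, Continuous (g k)) {φ : Lim g → ℝ} (hφ : Continuous φ) {γ : ℝ}
    (hγ : 0 < γ) : ∃ i, ∃ ψ : unitInterval → ℝ, Continuous ψ ∧ ∀ x, |ψ (x.1 i) - φ x| < γ := by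
  have := lim_compact hg
  have up : ∀ (u : Lim g → ℝ) i j, i ≤ j → (∃ ψ : unitInterval → ℝ, Continuous ψ ∧
      ∀ x, u x = ψ (x.1 i)) → ∃ ψ : unitInterval → ℝ, Continuous ψ ∧ ∀ x, u x = ψ (x.1 j) := by
    intro u i j hij h
    induction j, hij using Nat.le_induction with
    | base => exact h
    | succ j _ ih =>
      obtain ⟨ψ, c, e⟩ := ih
      exact ⟨ψ ∘ g j, c.comp (hg j), fun x => by rw [e x, x.2 j]; rfl⟩
  let S : Subalgebra ℝ C(Lim g, ℝ) :=
    { carrier := {u | ∃ i, ∃ ψ : unitInterval → ℝ, Continuous ψ ∧ ∀ x, u x = ψ (x.1 i)}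
      mul_mem' := by
        rintro u v ⟨i, hu⟩ ⟨j, hv⟩
        obtain ⟨a, ca, ea⟩ := up u i _ (le_max_left i j) hu
        obtain ⟨b, cb, eb⟩ := up v j _ (le_max_right i j) hv
        exact ⟨max i j, a * b, ca.mul cb, fun x => by simp [ea, eb]⟩
      add_mem' := by
        rintro u v ⟨i, hu⟩ ⟨j, hv⟩
        obtain ⟨a, ca, ea⟩ := up u i _ (le_max_left i j) hu
        obtain ⟨b, cb, eb⟩ := up v j _ (le_max_right i j) hv
        exact ⟨max i j, a + b, ca.add cb, fun x => by simp [ea, eb]⟩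
      algebraMap_mem' := fun r => ⟨0, fun _ => r, continuous_const, fun x => by simp⟩ }
  have hS : S.SeparatesPoints := by
    intro x y hxy
    obtain ⟨i, hi⟩ : ∃ i, x.1 i ≠ y.1 i := by
      by_contra hcon
      push Not at hcon
      exact hxy (Subtype.ext (funext hcon))
    refine ⟨fun z => (z.1 i : ℝ), ⟨⟨fun z => (z.1 i : ℝ), continuous_subtype_val.comp (cont_p i)⟩,
      ⟨i, fun t => t, continuous_subtype_val, fun _ => rfl⟩, rfl⟩, fun h => hi (Subtype.ext h)⟩
  obtain ⟨⟨u, i, ψ, c, e⟩, hu⟩ :=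
    ContinuousMap.exists_mem_subalgebra_near_continuous_of_separatesPoints S hS φ hφ γ hγ
  exact ⟨i, ψ, c, fun x => by rw [← e x]; exact hu x⟩

end Pool.Agent.H.MP_18ddbc_gt
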