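import Pool.Agent.H.MP_18ddbc_gt.Real
import Pool.Agent.H.MP_18ddbc_gt.Top

set_option autoImplicit false

namespace Pool.Agent.H.MP_18ddbc_gt

open Set Topology

variable {g : ℕ → unitInterval → unitInterval}

lemma up_of (hs : ∀ k, Function.Surjective (g k)) {φ : Lim g → ℝ} {ψ : ℝ → ℝ} {γ : ℝ} {i : ℕ}
    (hψ : ∀ x : Lim g, |ψ (x.1 i) - φ x| < γ)
    (hφ : ∀ x, ∃ C : Set (Lim g), IsPreconnected C ∧ x ∈ C ∧ (∀ z ∈ C, φ x ≤ φ z) ∧
      ∃ z ∈ C, φ z = 1) : Up ψ (2 * γ) := by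
  intro s t u h0 hst htu h1 cs cu
  obtain ⟨x, hx⟩ := p_surj i g hs ⟨t, h0.trans hst, htu.trans h1⟩
  obtain ⟨C, hC, hxC, hle, z, hz, hz1⟩ := hφ x
  have hoc : ((fun y : Lim g => (y.1 i : ℝ)) '' C).OrdConnected :=
    (hC.image _ (continuous_subtype_val.comp (cont_p i)).continuousOn).ordConnected
  have hxt : (x.1 i : ℝ) = t := by rw [hx]
  have hno : ∀ v, ψ v + 2 * γ < ψ t → v ∉ (fun y : Lim g => (y.1 i : ℝ)) '' C := by
    rintro _ hv ⟨y, hy, rfl⟩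
    have a1 := abs_lt.1 (hψ y)
    have a2 := abs_lt.1 (hψ x)
    rw [hxt] at a2
    have := hle y hy
    simp only at hv
    linarith [a1.1, a2.2]
  have a3 := abs_lt.1 (hψ z)
  have hγ : 0 < γ := by linarith [a3.1, a3.2]
  refine ⟨z.1 i, ⟨?_, ?_⟩, by linarith [a3.1]⟩
  · rcases cs with rfl | cs
    · exact (z.1 i).2.1
    · by_contra hcon
      exact hno s cs (hoc.out ⟨z, hz, rfl⟩ ⟨x, hxC, hxt⟩ ⟨(not_le.1 hcon).le, hst⟩)
  · rcases cu with rfl | cu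
    · exact (z.1 i).2.2
    · by_contra hcon
      exact hno u cu (hoc.out ⟨x, hxC, hxt⟩ ⟨z, hz, rfl⟩ ⟨htu, (not_le.1 hcon).le⟩)

lemma open_of_good {F : ℝ → ℝ} (hc : Continuous F) (hG : Good F 0 1) :
    ∃ G : unitInterval → unitInterval, Continuous G ∧ IsOpenMap G ∧ ∀ t, (G t : ℝ) = F t := by
  refine ⟨fun t => ⟨F t, hG.1 t t.2⟩, (hc.comp continuous_subtype_val).subtype_mk _, ?_,
    fun _ => rfl⟩
  intro U hU
  rw [Metric.isOpen_iff] at hU ⊢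
  rintro _ ⟨x, hx, rfl⟩
  obtain ⟨r, hr, hb⟩ := hU x hx
  obtain ⟨ρ, hρ, k⟩ := hG.2 x x.2 r hr
  refine ⟨ρ, hρ, fun y hy => ?_⟩
  obtain ⟨x', hx', d, e⟩ := k y y.2 hy
  exact ⟨⟨x', hx'⟩, hb d, Subtype.ext e⟩

theorem one_level (hg : ∀ k, Continuous (g k) ∧ IsOpenMap (g k)) {φ : Lim g → unitInterval}
    (hφ : Continuous φ)
    (hc : ∀ a b : unitInterval, ∀ x, φ x ∈ Icc a b →
      ∃ C : Set (Lim g), IsPreconnected C ∧ x ∈ C ∧ φ '' C = Icc a b)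
    {ε : ℝ} (hε : 0 < ε) :
    ∃ i, ∃ G : unitInterval → unitInterval, Continuous G ∧ IsOpenMap G ∧
      ∀ x : Lim g, dist (G (x.1 i)) (φ x) < ε := by
  have hs := fun k => surj_of_open (hg k).1 (hg k).2
  obtain ⟨γ, hγ, hγ1, hγ2⟩ : ∃ γ : ℝ, 0 < γ ∧ γ ≤ 1 / 100 ∧ γ ≤ ε / 100 :=
    ⟨min (1 / 100) (ε / 100), by positivity, min_le_left _ _, min_le_right _ _⟩
  obtain ⟨i, ψ, cψ, hψ⟩ := exists_psi (fun k => (hg k).1) (φ := fun x => (φ x : ℝ))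
    (continuous_subtype_val.comp hφ) hγ
  set Ψ : ℝ → ℝ := fun t => ψ (projIcc 0 1 zero_le_one t) with hΨ
  have cΨ : Continuous Ψ := cψ.comp continuous_projIcc
  have hΨ' : ∀ x : Lim g, |Ψ (x.1 i) - φ x| < γ := fun x => by
    simp only [hΨ, projIcc_val]; exact hψ x
  have hΨ'' : ∀ x : Lim g, |(1 - Ψ (x.1 i)) - (1 - φ x)| < γ := fun x => by
    have := abs_lt.1 (hΨ' x)
    rw [abs_lt]; constructor <;> linarith [this.1, this.2]
  have hA : ∀ x, ∃ C : Set (Lim g), IsPreconnected C ∧ x ∈ C ∧ (∀ z ∈ C, (φ x : ℝ) ≤ φ z) ∧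
      ∃ z ∈ C, (φ z : ℝ) = 1 := by
    intro x
    obtain ⟨C, h1, h2, h3⟩ := hc (φ x) 1 x ⟨le_rfl, unitInterval.le_one'⟩
    refine ⟨C, h1, h2, fun z hz => ?_, ?_⟩
    · exact (h3 ▸ mem_image_of_mem φ hz : φ z ∈ Icc (φ x) 1).1
    · obtain ⟨z, hz, e⟩ : (1 : unitInterval) ∈ φ '' C := h3 ▸ ⟨unitInterval.le_one', le_rfl⟩
      exact ⟨z, hz, by rw [e]; rfl⟩
  have hB : ∀ x, ∃ C : Set (Lim g), IsPreconnected C ∧ x ∈ C ∧
      (∀ z ∈ C, 1 - (φ x : ℝ) ≤ 1 - φ z) ∧ ∃ z ∈ C, 1 - (φ z : ℝ) = 1 := by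
    intro x
    obtain ⟨C, h1, h2, h3⟩ := hc 0 (φ x) x ⟨unitInterval.nonneg', le_rfl⟩
    refine ⟨C, h1, h2, fun z hz => ?_, ?_⟩
    · have : (φ z : ℝ) ≤ φ x := (h3 ▸ mem_image_of_mem φ hz : φ z ∈ Icc 0 (φ x)).2
      linarith
    · obtain ⟨z, hz, e⟩ : (0 : unitInterval) ∈ φ '' C := h3 ▸ ⟨le_rfl, unitInterval.nonneg'⟩
      exact ⟨z, hz, by rw [e]; simp⟩
  obtain ⟨x₀, -⟩ := p_surj i g hs 0
  obtain ⟨F, cF, gF, aF⟩ := approx (δ := 2 * γ) (by linarith) (by linarith) cΨ (up_of hs hΨ' hA)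
    (up_of hs (ψ := fun t => 1 - Ψ t) (φ := fun x => 1 - (φ x : ℝ)) hΨ'' hB)
    (by
      intro t ht
      obtain ⟨x, hx⟩ := p_surj i g hs ⟨t, ht⟩
      have := abs_lt.1 (hΨ' x)
      rw [hx] at this
      linarith [this.1, (φ x).2.1])
    (by
      intro t ht
      obtain ⟨x, hx⟩ := p_surj i g hs ⟨t, ht⟩
      have := abs_lt.1 (hΨ' x)
      rw [hx] at this
      linarith [this.2, (φ x).2.2])
    (by
      obtain ⟨C, -, -, -, z, -, e⟩ := hA x₀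
      have := abs_lt.1 (hΨ' z)
      exact ⟨z.1 i, (z.1 i).2, by linarith [this.1]⟩)
    (by
      obtain ⟨C, -, -, -, z, -, e⟩ := hB x₀
      have := abs_lt.1 (hΨ' z)
      exact ⟨z.1 i, (z.1 i).2, by linarith [this.2]⟩)
  obtain ⟨G, cG, oG, eG⟩ := open_of_good cF gF
  refine ⟨i, G, cG, oG, fun x => ?_⟩
  rw [Subtype.dist_eq, Real.dist_eq, eG]
  have a1 := abs_le.1 (aF _ (x.1 i).2)
  have a2 := abs_lt.1 (hΨ' x)
  rw [abs_lt]
  constructor <;> linarith [a1.1, a1.2, a2.1, a2.2]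

theorem diag (hg : ∀ k, Continuous (g k) ∧ IsOpenMap (g k)) {φ : Lim g → unitInterval}
    (h : ∀ ε > 0, ∃ i, ∃ G : unitInterval → unitInterval, Continuous G ∧ IsOpenMap G ∧
      ∀ x : Lim g, dist (G (x.1 i)) (φ x) < ε) :
    ∃ F : ℕ → unitInterval → unitInterval, (∀ i, Continuous (F i) ∧ IsOpenMap (F i)) ∧
      TendstoUniformly (fun (i : ℕ) (x : Lim g) => F i (x.1 i)) φ Filter.atTop := by
  classical
  set Q : ℕ → ℕ → Prop := fun i n => ∃ G : unitInterval → unitInterval, Continuous G ∧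
    IsOpenMap G ∧ ∀ x : Lim g, dist (G (x.1 i)) (φ x) < 1 / ((n:ℝ) + 1) with hQ
  have hmono : ∀ n i j, i ≤ j → Q i n → Q j n := by
    intro n i j hij hq
    induction j, hij using Nat.le_induction with
    | base => exact hq
    | succ j _ ih =>
      obtain ⟨G, c, o, e⟩ := ih
      exact ⟨G ∘ g j, c.comp (hg j).1, o.comp (hg j).2, fun x => by
        have := e x
        rw [x.2 j] at this
        exact this⟩
  have hex : ∀ i, ∃ G : unitInterval → unitInterval, (Continuous G ∧ IsOpenMap G) ∧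
      ∀ n ≤ i, Q i n → ∀ x : Lim g, dist (G (x.1 i)) (φ x) < 1 / ((n:ℝ) + 1) := by
    intro i
    by_cases hq : Q i (Nat.findGreatest (Q i) i)
    · obtain ⟨G, c, o, e⟩ := hq
      refine ⟨G, ⟨c, o⟩, fun n hn hqn x => (e x).trans_le ?_⟩
      have : n ≤ Nat.findGreatest (Q i) i := Nat.le_findGreatest hn hqn
      exact Nat.one_div_le_one_div this
    · exact ⟨id, ⟨continuous_id, IsOpenMap.id⟩, fun n hn hqn =>
        absurd (Nat.findGreatest_spec hn hqn) hq⟩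
  choose F hF hF' using hex
  refine ⟨F, hF, Metric.tendstoUniformly_iff.2 fun ε hε => ?_⟩
  obtain ⟨n, hn⟩ := exists_nat_one_div_lt hε
  obtain ⟨i, hi⟩ := h (1 / ((n:ℝ) + 1)) Nat.one_div_pos_of_nat
  filter_upwards [Filter.eventually_ge_atTop i, Filter.eventually_ge_atTop n] with j h1 h2 x
  rw [dist_comm]
  exact (hF' j n h2 (hmono n i j h1 hi) x).trans hn

end Pool.Agent.H.MP_18ddbc_gt
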