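import Mathlib

set_option autoImplicit false

namespace Pool.Agent.H.MP_18ddbc_gt

open Set

def Good (F : ℝ → ℝ) (s t : ℝ) : Prop :=
  (∀ x ∈ Icc s t, F x ∈ Icc (0:ℝ) 1) ∧
  ∀ x ∈ Icc s t, ∀ r > 0, ∃ ρ > 0, ∀ y ∈ Icc (0:ℝ) 1, |y - F x| < ρ →
    ∃ x' ∈ Icc s t, |x' - x| < r ∧ F x' = y

lemma good_of_strictMono {F : ℝ → ℝ} {s t : ℝ} (hc : Continuous F)
    (hm : StrictMonoOn F (Icc s t)) (hst : s ≤ t) (h0 : F s = 0) (h1 : F t = 1) :
    Good F s t := by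
  have hs : s ∈ Icc s t := ⟨le_rfl, hst⟩
  have ht : t ∈ Icc s t := ⟨hst, le_rfl⟩
  refine ⟨fun x hx => ⟨h0 ▸ hm.monotoneOn hs hx hx.1, h1 ▸ hm.monotoneOn hx ht hx.2⟩, ?_⟩
  intro x hx r hr
  set a := max s (x - r / 2) with ha
  set b := min t (x + r / 2) with hb
  have hax : a ≤ x := max_le hx.1 (by linarith)
  have hxb : x ≤ b := le_min hx.2 (by linarith)
  have haI : a ∈ Icc s t := ⟨le_max_left _ _, hax.trans hx.2⟩
  have hbI : b ∈ Icc s t := ⟨hx.1.trans hxb, min_le_left _ _⟩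
  have h2 : ∃ ρ > 0, ∀ y, 0 ≤ y → F x - ρ < y → F a ≤ y := by
    rcases hax.eq_or_lt with h | h
    · have : a = s := by
        rcases max_choice s (x - r / 2) with h' | h'
        · exact h'
        · rw [← ha] at h'; linarith
      exact ⟨1, one_pos, fun y hy _ => by rw [this, h0]; exact hy⟩
    · exact ⟨F x - F a, sub_pos.2 (hm haI hx h), fun y _ hy => by linarith⟩
  have h3 : ∃ ρ > 0, ∀ y, y ≤ 1 → y < F x + ρ → y ≤ F b := by
    rcases hxb.eq_or_lt with h | h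
    · have : b = t := by
        rcases min_choice t (x + r / 2) with h' | h'
        · exact h'
        · rw [← hb] at h'; linarith
      exact ⟨1, one_pos, fun y hy _ => by rw [this, h1]; exact hy⟩
    · exact ⟨F b - F x, sub_pos.2 (hm hx hbI h), fun y _ hy => by linarith⟩
  obtain ⟨ρ₁, hρ₁, k₁⟩ := h2
  obtain ⟨ρ₂, hρ₂, k₂⟩ := h3
  refine ⟨min ρ₁ ρ₂, lt_min hρ₁ hρ₂, fun y hy hyx => ?_⟩
  have e1 := min_le_left ρ₁ ρ₂
  have e2 := min_le_right ρ₁ ρ₂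
  rw [abs_lt] at hyx
  obtain ⟨x', hx', hF⟩ := intermediate_value_Icc (hax.trans hxb) hc.continuousOn
    (⟨k₁ y hy.1 (by linarith), k₂ y hy.2 (by linarith)⟩ : y ∈ Icc (F a) (F b))
  refine ⟨x', ⟨haI.1.trans hx'.1, hx'.2.trans hbI.2⟩, ?_, hF⟩
  have e3 : x - r / 2 ≤ a := le_max_right _ _
  have e4 : b ≤ x + r / 2 := min_le_right _ _
  rw [abs_lt]
  constructor <;> linarith [hx'.1, hx'.2]

lemma Good.mirror {F : ℝ → ℝ} {s t : ℝ} (h : Good F s t) : Good (fun x => 1 - F x) s t := by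
  refine ⟨fun x hx => ⟨by linarith [(h.1 x hx).2], by linarith [(h.1 x hx).1]⟩, ?_⟩
  intro x hx r hr
  obtain ⟨ρ, hρ, k⟩ := h.2 x hx r hr
  refine ⟨ρ, hρ, fun y hy hyx => ?_⟩
  obtain ⟨x', hx', h1, h2⟩ := k (1 - y) ⟨by linarith [hy.2], by linarith [hy.1]⟩ (by
    rw [abs_lt] at hyx ⊢
    constructor <;> linarith [hyx.1, hyx.2])
  exact ⟨x', hx', h1, by simp only [h2]; ring⟩

lemma Good.glue {F F₁ F₂ : ℝ → ℝ} {s t u : ℝ} (h₁ : Good F₁ s t) (h₂ : Good F₂ t u)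
    (hst : s ≤ t) (htu : t ≤ u) (e₁ : ∀ x ∈ Icc s t, F x = F₁ x) (e₂ : ∀ x ∈ Icc t u, F x = F₂ x) :
    Good F s u := by
  constructor
  · intro x hx
    rcases le_total x t with h | h
    · rw [e₁ x ⟨hx.1, h⟩]; exact h₁.1 x ⟨hx.1, h⟩
    · rw [e₂ x ⟨h, hx.2⟩]; exact h₂.1 x ⟨h, hx.2⟩
  · intro x hx r hr
    rcases le_total x t with h | h
    · obtain ⟨ρ, hρ, k⟩ := h₁.2 x ⟨hx.1, h⟩ r hr
      refine ⟨ρ, hρ, fun y hy hyx => ?_⟩
      rw [e₁ x ⟨hx.1, h⟩] at hyx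
      obtain ⟨x', hx', h1, h2⟩ := k y hy hyx
      exact ⟨x', ⟨hx'.1, hx'.2.trans htu⟩, h1, by rw [e₁ x' hx', h2]⟩
    · obtain ⟨ρ, hρ, k⟩ := h₂.2 x ⟨h, hx.2⟩ r hr
      refine ⟨ρ, hρ, fun y hy hyx => ?_⟩
      rw [e₂ x ⟨h, hx.2⟩] at hyx
      obtain ⟨x', hx', h1, h2⟩ := k y hy hyx
      exact ⟨x', ⟨hst.trans hx'.1, hx'.2⟩, h1, by rw [e₂ x' hx', h2]⟩

lemma lap {ψ : ℝ → ℝ} (hc : Continuous ψ) {s t ε : ℝ} (hst : s < t) (hε : 0 < ε) (hε1 : ε < 1)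
    (hs : |ψ s| ≤ ε) (hub : ∀ u ∈ Icc s t, ψ u ≤ 1 + ε)
    (hmono : ∀ u ∈ Icc s t, ∀ v ∈ Icc s t, u ≤ v → ψ u ≤ ψ v + ε)
    (hhi : ∃ w ∈ Icc s t, 1 - ε ≤ ψ w) :
    ∃ F : ℝ → ℝ, Continuous F ∧ Good F s t ∧ F s = 0 ∧ F t = 1 ∧
      ∀ x ∈ Icc s t, |F x - ψ x| ≤ 6 * ε := by
  set M : ℝ → ℝ := fun x => sSup ((fun u => ψ (min u x)) '' Icc s t) with hM
  have hMc : Continuous M := by
    apply IsCompact.continuous_sSup isCompact_Icc (f := fun x u => ψ (min u x))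
    exact hc.comp (continuous_snd.min continuous_fst)
  have hne : (Icc s t).Nonempty := ⟨s, le_rfl, hst.le⟩
  have hbdd : ∀ x, BddAbove ((fun u => ψ (min u x)) '' Icc s t) := fun x =>
    (isCompact_Icc.image (hc.comp (continuous_id.min continuous_const))).bddAbove
  have hle : ∀ x, ∀ u ∈ Icc s t, u ≤ x → ψ u ≤ M x := fun x u hu hux =>
    le_csSup (hbdd x) ⟨u, hu, by simp only [min_eq_left hux]⟩
  have hup : ∀ x ∈ Icc s t, ∀ c, (∀ u ∈ Icc s t, u ≤ x → ψ u ≤ c) → M x ≤ c := by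
    intro x hx c k
    apply csSup_le (hne.image _)
    rintro _ ⟨u, hu, rfl⟩
    exact k _ ⟨le_min hu.1 hx.1, (min_le_left _ _).trans hu.2⟩ (min_le_right _ _)
  have hMm : ∀ x ∈ Icc s t, ∀ y ∈ Icc s t, x ≤ y → M x ≤ M y := fun x hx y _ hxy =>
    hup x hx _ fun u hu hux => hle y u hu (hux.trans hxy)
  have hsI : s ∈ Icc s t := ⟨le_rfl, hst.le⟩
  have htI : t ∈ Icc s t := ⟨hst.le, le_rfl⟩
  have hMs : M s = ψ s := le_antisymm (hup s hsI _ fun u hu hus => by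
    rw [le_antisymm hus hu.1]) (hle s s hsI le_rfl)
  have hMt : 1 - ε ≤ M t := by
    obtain ⟨w, hw, h⟩ := hhi
    exact h.trans (hle t w hw hw.2)
  have hMt' : M t ≤ 1 + ε := hup t htI _ fun u hu _ => hub u hu
  set H : ℝ → ℝ := fun x => M x + ε * ((x - s) / (t - s)) with hH
  have hts : 0 < t - s := sub_pos.2 hst
  have hHc : Continuous H := by
    rw [hH]; fun_prop
  have hHm : StrictMonoOn H (Icc s t) := by
    intro x hx y hy hxy
    have h1 := hMm x hx y hy hxy.le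
    have h2 : (x - s) / (t - s) < (y - s) / (t - s) := by
      apply div_lt_div_of_pos_right _ hts; linarith
    have h3 := mul_lt_mul_of_pos_left h2 hε
    simp only [hH]; linarith
  have hHs : H s = ψ s := by simp [hH, hMs]
  have hHt : H t = M t + ε := by simp only [hH]; rw [div_self hts.ne']; ring
  rw [abs_le] at hs
  have hD : 0 < H t - H s := by rw [hHs, hHt]; linarith
  have hFc : Continuous fun x => (H x - H s) / (H t - H s) := by fun_prop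
  have hG : Good (fun x => (H x - H s) / (H t - H s)) s t := by
    apply good_of_strictMono hFc _ hst.le (by simp) (div_self hD.ne')
    intro x hx y hy hxy
    apply div_lt_div_of_pos_right _ hD
    linarith [hHm hx hy hxy]
  refine ⟨_, hFc, hG, by simp, div_self hD.ne', fun x hx => ?_⟩
  have hF := hG.1 x hx
  set φ := (H x - H s) / (H t - H s) with hφ
  have hφ' : φ * (H t - H s) = H x - H s := div_mul_cancel₀ _ hD.ne'
  have l1 := hle x x hx le_rfl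
  have l2 := hup x hx (ψ x + ε) fun u hu hux => hmono u hu x hx hux
  have l3 : 0 ≤ (x - s) / (t - s) := div_nonneg (by linarith [hx.1]) hts.le
  have l4 : (x - s) / (t - s) ≤ 1 := (div_le_one hts).2 (by linarith [hx.2])
  have l5 : M x ≤ H x := by simp only [hH]; nlinarith
  have l6 : H x ≤ M x + ε := by simp only [hH]; nlinarith
  have l7 : 1 - ε ≤ H t - H s := by rw [hHs, hHt]; linarith
  have l8 : H t - H s ≤ 1 + 3 * ε := by rw [hHs, hHt]; linarith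
  have hF1 : 0 ≤ φ := hF.1
  have hF2 : φ ≤ 1 := hF.2
  rw [abs_le]
  constructor <;> nlinarith

def Up (ψ : ℝ → ℝ) (δ : ℝ) : Prop :=
  ∀ s t u : ℝ, 0 ≤ s → s ≤ t → t ≤ u → u ≤ 1 → (s = 0 ∨ ψ s + δ < ψ t) →
    (u = 1 ∨ ψ u + δ < ψ t) → ∃ w ∈ Icc s u, 1 - δ ≤ ψ w

structure Pack (ψ : ℝ → ℝ) (δ ρ : ℝ) : Prop where
  c : Continuous ψ
  up : Up ψ δ
  dn : Up (fun x => 1 - ψ x) δ
  lb : ∀ x ∈ Icc (0:ℝ) 1, -δ ≤ ψ x
  ub : ∀ x ∈ Icc (0:ℝ) 1, ψ x ≤ 1 + δ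
  md : ∀ x ∈ Icc (0:ℝ) 1, ∀ y ∈ Icc (0:ℝ) 1, |x - y| < ρ → |ψ x - ψ y| < 1 / 2

lemma Pack.mirror {ψ : ℝ → ℝ} {δ ρ : ℝ} (h : Pack ψ δ ρ) : Pack (fun x => 1 - ψ x) δ ρ where
  c := continuous_const.sub h.c
  up := h.dn
  dn := by simpa using h.up
  lb := fun x hx => by linarith [h.ub x hx]
  ub := fun x hx => by linarith [h.lb x hx]
  md := fun x hx y hy hxy => by
    have := h.md x hx y hy hxy
    rw [abs_lt] at this ⊢
    constructor <;> linarith [this.1, this.2]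

lemma first_pt {S : Set ℝ} (hS : IsClosed S) {s : ℝ} (h : ∃ w ∈ Icc s 1, w ∈ S) :
    ∃ t ∈ Icc s 1, t ∈ S ∧ ∀ w ∈ Icc s 1, w ∈ S → t ≤ w := by
  obtain ⟨w, hw, hwS⟩ := h
  obtain ⟨t, ht, k⟩ := (isCompact_Icc.inter_right hS).exists_isLeast ⟨w, hw, hwS⟩
  exact ⟨t, ht.1, ht.2, fun w hw hwS => k ⟨hw, hwS⟩⟩

lemma laps {δ ρ : ℝ} (hδ : 0 < δ) (hδ1 : δ < 1 / 10) (n : ℕ) :
    ∀ (ψ : ℝ → ℝ) (s : ℝ), Pack ψ δ ρ → s ∈ Icc (0:ℝ) 1 → 1 - s < n * ρ → ψ s ≤ 2 * δ →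
      (∃ w ∈ Icc s 1, 1 - δ ≤ ψ w) →
      ∃ F : ℝ → ℝ, Continuous F ∧ Good F s 1 ∧ F s = 0 ∧
        ∀ x ∈ Icc s 1, |F x - ψ x| ≤ 24 * δ := by
  induction n with
  | zero => intro ψ s _ hs h; simp at h; linarith [hs.2]
  | succ n ih =>
    intro ψ s hP hs hn hlo hhi
    obtain ⟨t, ht, hthi, htmin⟩ := first_pt (S := {w | 1 - δ ≤ ψ w})
      (isClosed_le continuous_const hP.c) hhi
    have hthi : 1 - δ ≤ ψ t := hthi
    have htI : t ∈ Icc (0:ℝ) 1 := ⟨hs.1.trans ht.1, ht.2⟩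
    have hρ : ρ ≤ t - s := by
      by_contra hcon
      push Not at hcon
      have := hP.md t htI s hs (by rw [abs_of_nonneg (by linarith [ht.1])]; exact hcon)
      rw [abs_lt] at this
      linarith [this.2]
    have hst : s < t := by
      rcases ht.1.eq_or_lt with h | h
      · rw [h] at hlo; linarith
      · exact h
    have hs' : |ψ s| ≤ 4 * δ := by
      rw [abs_le]; constructor <;> linarith [hP.lb s hs]
    have hmono : ∀ u ∈ Icc s t, ∀ v ∈ Icc s t, u ≤ v → ψ u ≤ ψ v + 4 * δ := by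
      intro u hu v hv huv
      by_contra hcon
      push Not at hcon
      have hvI : v ∈ Icc (0:ℝ) 1 := ⟨hs.1.trans hv.1, hv.2.trans ht.2⟩
      have huI : u ∈ Icc (0:ℝ) 1 := ⟨hs.1.trans hu.1, hu.2.trans ht.2⟩
      obtain ⟨w, hw, hw'⟩ := hP.up s u v hs.1 hu.1 huv hvI.2
        (Or.inr (by linarith [hP.lb v hvI])) (Or.inr (by linarith))
      have h1 := htmin w ⟨hw.1, hw.2.trans hvI.2⟩ hw'
      have h2 : v = t := le_antisymm hv.2 (h1.trans hw.2)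
      rw [h2] at hcon
      linarith [hP.ub u huI]
    by_cases hc : ∃ w ∈ Icc t 1, 1 - δ ≤ 1 - ψ w
    · obtain ⟨F₂, c₂, g₂, z₂, a₂⟩ := ih (fun x => 1 - ψ x) t hP.mirror htI
        (by push_cast at hn; linarith) (by linarith) hc
      obtain ⟨F₁, c₁, g₁, z₁, o₁, a₁⟩ := lap hP.c hst (ε := 4 * δ) (by linarith) (by linarith) hs'
        (fun u hu => by linarith [hP.ub u ⟨hs.1.trans hu.1, hu.2.trans ht.2⟩]) hmono
        ⟨t, ⟨hst.le, le_rfl⟩, by linarith⟩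
      have e₁ : ∀ x ∈ Icc s t, (if x ≤ t then F₁ x else 1 - F₂ x) = F₁ x := fun x hx => if_pos hx.2
      have e₂ : ∀ x ∈ Icc t 1, (if x ≤ t then F₁ x else 1 - F₂ x) = 1 - F₂ x := by
        intro x hx
        split_ifs with h
        · rw [le_antisymm h hx.1, o₁, z₂]; ring
        · rfl
      refine ⟨fun x => if x ≤ t then F₁ x else 1 - F₂ x, ?_,
        g₁.glue g₂.mirror hst.le ht.2 e₁ e₂, by simp only [if_pos hst.le, z₁], fun x hx => ?_⟩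
      · apply Continuous.if_le c₁ (continuous_const.sub c₂) continuous_id continuous_const
        intro x hx
        simp only [id] at hx
        subst hx
        simp [o₁, z₂]
      · rcases le_total x t with h | h
        · simp only [e₁ x ⟨hx.1, h⟩]
          linarith [a₁ x ⟨hx.1, h⟩]
        · simp only [e₂ x ⟨h, hx.2⟩]
          have := a₂ x ⟨h, hx.2⟩
          rw [abs_le] at this ⊢
          constructor <;> linarith [this.1, this.2]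
    · have hhigh : ∀ v ∈ Icc t 1, 1 - 2 * δ ≤ ψ v := by
        intro v hv
        by_contra hcon
        push Not at hcon
        exact hc (hP.dn t v 1 htI.1 hv.1 hv.2 le_rfl (Or.inr (by linarith)) (Or.inl rfl))
      obtain ⟨F₁, c₁, g₁, z₁, -, a₁⟩ := lap hP.c (hst.trans_le ht.2) (ε := 4 * δ) (by linarith)
        (by linarith) hs' (fun u hu => by linarith [hP.ub u ⟨hs.1.trans hu.1, hu.2⟩])
        (by
          intro u hu v hv huv
          rcases le_total v t with h | h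
          · exact hmono u ⟨hu.1, huv.trans h⟩ v ⟨hv.1, h⟩ huv
          · linarith [hhigh v ⟨h, hv.2⟩, hP.ub u ⟨hs.1.trans hu.1, hu.2⟩])
        ⟨t, ht, by linarith⟩
      exact ⟨F₁, c₁, g₁, z₁, fun x hx => by linarith [a₁ x hx]⟩

theorem approx {ψ : ℝ → ℝ} {δ : ℝ} (hδ : 0 < δ) (hδ1 : δ < 1 / 10) (hc : Continuous ψ)
    (hup : Up ψ δ) (hdn : Up (fun x => 1 - ψ x) δ)
    (lb : ∀ x ∈ Icc (0:ℝ) 1, -δ ≤ ψ x) (ub : ∀ x ∈ Icc (0:ℝ) 1, ψ x ≤ 1 + δ)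
    (hhi : ∃ w ∈ Icc (0:ℝ) 1, 1 - δ ≤ ψ w) (hlo : ∃ w ∈ Icc (0:ℝ) 1, 1 - δ ≤ 1 - ψ w) :
    ∃ F : ℝ → ℝ, Continuous F ∧ Good F 0 1 ∧ ∀ x ∈ Icc (0:ℝ) 1, |F x - ψ x| ≤ 24 * δ := by
  have huc := isCompact_Icc.uniformContinuousOn_of_continuous (s := Icc (0:ℝ) 1) hc.continuousOn
  rw [Metric.uniformContinuousOn_iff] at huc
  obtain ⟨ρ, hρ, hmd⟩ := huc (1 / 2) (by norm_num)
  have hP : Pack ψ δ ρ := ⟨hc, hup, hdn, lb, ub, fun x hx y hy h => hmd x hx y hy h⟩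
  obtain ⟨n, hn⟩ := exists_nat_gt (1 / ρ)
  have hn' : 1 - 0 < n * ρ := by
    rw [div_lt_iff₀ hρ] at hn; linarith
  have h0 : (0:ℝ) ∈ Icc (0:ℝ) 1 := ⟨le_rfl, zero_le_one⟩
  by_cases h1 : ψ 0 ≤ 2 * δ
  · obtain ⟨F, c, g, -, a⟩ := laps hδ hδ1 n ψ 0 hP h0 hn' h1 hhi
    exact ⟨F, c, g, a⟩
  by_cases h2 : 1 - ψ 0 ≤ 2 * δ
  · obtain ⟨F, c, g, -, a⟩ := laps hδ hδ1 n _ 0 hP.mirror h0 hn' h2 hlo
    refine ⟨fun x => 1 - F x, continuous_const.sub c, g.mirror, fun x hx => ?_⟩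
    have := a x hx
    rw [abs_le] at this ⊢
    constructor <;> linarith [this.1, this.2]
  exfalso
  push Not at h1 h2
  obtain ⟨m, hm, hmS, hmin⟩ := first_pt (S := {w | 1 - δ ≤ ψ w} ∪ {w | 1 - δ ≤ 1 - ψ w})
    ((isClosed_le continuous_const hc).union (isClosed_le continuous_const
      (continuous_const.sub hc))) (s := 0) (by
        obtain ⟨w, hw, h⟩ := hhi
        exact ⟨w, hw, Or.inl h⟩)
  rcases hmS with h | h
  · have h : 1 - δ ≤ ψ m := h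
    obtain ⟨w, hw, hw'⟩ := hdn 0 0 m le_rfl le_rfl hm.1 hm.2 (Or.inl rfl) (Or.inr (by linarith))
    have := hmin w ⟨hw.1, hw.2.trans hm.2⟩ (Or.inr hw')
    rw [le_antisymm hw.2 this] at hw'
    linarith
  · have h : 1 - δ ≤ 1 - ψ m := h
    obtain ⟨w, hw, hw'⟩ := hup 0 0 m le_rfl le_rfl hm.1 hm.2 (Or.inl rfl) (Or.inr (by linarith))
    have := hmin w ⟨hw.1, hw.2.trans hm.2⟩ (Or.inl hw')
    rw [le_antisymm hw.2 this] at hw'
    linarith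

end Pool.Agent.H.MP_18ddbc_gt
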